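import Pool.Agent.Helper60.MF.Transfer

set_option autoImplicit false

/-!
# Failures of Martin's conjecture with countably many countable models: the reductions

The reductions of `Pool/Graph/R_pool_sql_team_seeded_ab47071d/TH686/MC`, for theories with countably
many countable models.
-/

namespace Pool.Agent.Helper60.MF

section Fin

open FirstOrder FirstOrder.Language
open Pool.Agent.W889.FO Pool.Agent.W889.VC Pool.Agent.W889.VC.Grid
open Pool.Agent.TH686.FO Pool.Agent.TH686.DO
open Pool.Agent.TH686.MC hiding transfer transferJ martin_fin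

/-- Martin's conjecture for finite relational languages follows from its restriction to pairs of
dense linear orders. -/
theorem martin_finC {L : FirstOrder.Language.{0, 0}} [L.IsRelational] (A : FinL L)
    (hV : ∀ T : L2.Theory, T.IsComplete → CM T →
      (∀ S : L2.Structure ℕ, @Theory.Model L2 ℕ S T → DL1 (g1 S) ∧ DL1 (g2 S)) → MartinN T)
    (T : L.Theory) (hfew : CM T) : MartinN T := by
  have hc2 := countable_L2
  have : Countable (Σ n, L.Relations n) := by
    refine Function.Injective.countable (f := A.ix) fun Q Q' h => ?_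
    rw [← A.dc_ix Q, ← A.dc_ix Q', h]
  refine transferC (itF A) (supG A) T hfew (fun M _ => exF A M) fun T' _ hfew' hT' => ?_
  refine transferC I1 supB T' hfew' (fun M hM => ?_) fun T'' hc hf hT'' =>
    hV T'' hc hf fun S hS => ⟨(hT'' S hS).dl1, (hT'' S hS).dl2⟩
  obtain ⟨h1, h2⟩ := hT' M hM
  exact ex1 M h1.2.2.2.2.1 h1.2.2.2.2.2 (red_W h1 h2)

end Fin

section RA

open FirstOrder FirstOrder.Language Filter
open Pool.Agent.W889.FO Pool.Agent.W889.FO.StA
open Pool.Agent.TH686.FO Pool.Agent.TH686.JA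
open Pool.Agent.TH686.MC (MartinN tq D_tq)

variable {L : FirstOrder.Language.{0, 0}}

/-- the reduction -/
theorem reduceAC [L.IsRelational] [Countable (Σ n, L.Relations n)] (T : L.Theory)
    (hfew : CM T)
    (hM : ∀ T' : (LA L).Theory, T'.IsComplete → CM T' → MartinN T') :
    MartinN T := by
  have : Countable (Σ n, (LA L).Relations n) := countable_LA
  refine transferJC (tq (itp L)) gnA.sup T hfew (fun M _ => ?_) fun T' h1 h2 _ => hM T' h1 h2
  obtain ⟨S, h1, h2, h3⟩ := exA M
  refine ⟨S, h1, h2, ?_⟩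
  rw [D_tq]
  exact h3

end RA

section RB

open FirstOrder FirstOrder.Language Filter
open Pool.Agent.W889.FO Pool.Agent.W889.FO.StB
open Pool.Agent.TH686.FO Pool.Agent.TH686.JB
open Pool.Agent.TH686.DO (DL1)
open Pool.Agent.TH686.MC (MartinN tq D_tq exists_finL)

variable {L : FirstOrder.Language.{0, 0}}

/-- the reduction -/
theorem reduceBC {L : FirstOrder.Language.{0, 0}} (B : Bin L) [L.IsRelational] (T : L.Theory) (hfew : CM T)
    (hM : ∀ T' : LB.Theory, T'.IsComplete → CM T' → MartinN T') :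
    MartinN T := by
  have : Countable (Σ n, L.Relations n) := B.inj.countable
  have : Countable (Σ n, LB.Relations n) := countable_LB
  refine transferJC (tq (itp B)) (gnB B).sup T hfew (fun M _ => ?_) fun T' h1 h2 _ => hM T' h1 h2
  obtain ⟨S, h1, h2, h3⟩ := exB B M
  refine ⟨S, h1, h2, ?_⟩
  rw [D_tq]
  exact h3

/-- Martin's conjecture for countable relational languages follows from its restriction to pairs of
dense linear orders. -/
theorem martin_relC [L.IsRelational] [Countable (Σ n, L.Relations n)]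
    (hV : ∀ T : L2.Theory, T.IsComplete → CM T →
      (∀ S : L2.Structure ℕ, @Theory.Model L2 ℕ S T → DL1 (g1 S) ∧ DL1 (g2 S)) → MartinN T)
    (T : L.Theory) (hfew : CM T) : MartinN T := by
  refine reduceAC T hfew fun T1 _ h1 => ?_
  have := StA.countable_LA (L := L)
  obtain ⟨p, hp⟩ := Countable.exists_injective_nat (Σ n, (StA.LA L).Relations n)
  refine reduceBC (L := StA.LA L) ⟨fun n Q => ?_, p, hp⟩ T1 h1 fun T2 _ h2 => ?_
  · cases Q with
    | dm => exact Or.inl rfl
    | ur R => exact Or.inl rfl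
    | pr R i => exact Or.inr rfl
  · have := Pool.Agent.W889.FO.finite_LB
    have : Nonempty (Σ n, LB.Relations n) := ⟨⟨1, RB.D⟩⟩
    obtain ⟨A⟩ := exists_finL LB
    exact martin_finC A hV T2 h2

end RB

section RF

open FirstOrder FirstOrder.Language
open Pool.Agent.W889.FO Pool.Agent.W889.FO.St0
open Pool.Agent.TH686 Pool.Agent.TH686.FO Pool.Agent.TH686.JF
open Pool.Agent.TH686.DO (DL1)
open Pool.Agent.TH686.MC (Rz MartinN L1 IsCompleteType rz_of_fd fd_rz sat_iso rz_sentence)

variable {L : FirstOrder.Language.{0, 0}}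

/-- the reduction to relational languages -/
theorem reduceFC (T : L.Theory) (hfew : CM T)
    (hM : ∀ T' : (LF L).Theory, T'.IsComplete → CM T' → MartinN T') :
    MartinN T := by
  intro M N hMT hNT hMN
  obtain ⟨S, hS, hSM⟩ := ex M
  obtain ⟨S', hS', hSN⟩ := ex N
  let T' : (LF L).Theory := @FirstOrder.Language.completeTheory (LF L) ℕ S
  have hT' : T'.IsComplete := @FirstOrder.Language.completeTheory.isComplete (LF L) ℕ S _
  have hmem : ∀ σ : (LF L).Sentence, σ ∈ T' ↔ @Sentence.Realize (LF L) ℕ S σ := fun σ => Iff.rfl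
  have hm : ∀ R : (LF L).Structure ℕ, @Theory.Model (LF L) ℕ R T' → St0.W R ∧
      @Theory.Model L ℕ (D R) T := by
    intro R hR
    obtain ⟨T1, hT1⟩ := ax_theory T
    refine (hT1 R).1 (ax_iff.2 fun φ hφ => ax_iff.1 hR φ ?_)
    rw [hmem]
    exact ax_iff.1 ((hT1 S).2 ⟨hS, hSM.symm.model hMT⟩) φ hφ
  have hfew' : CM T' := cm_of (J := Unit) hfew (fun R => D R) (fun _ => ())
    (fun R hR => (hm R hR).2) fun R R' h1 h2 _ hi => iso_up (hm R h1).1 (hm R' h2).1 hi
  have hfin : ∀ φ : L1 T' 0, φ.Sat S Fin.elim0 ↔ φ.Sat S' Fin.elim0 := by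
    intro φ
    obtain ⟨φ', h⟩ := key hm φ
    rw [← h S hS, ← h S' hS']
    obtain ⟨g⟩ := hSM
    obtain ⟨g'⟩ := hSN
    have h1 := MC.sat_iso' g φ' Fin.elim0
    have h2 := MC.sat_iso' g' φ' Fin.elim0
    have e1 : (fun i : Fin 0 => g (Fin.elim0 i)) = Fin.elim0 := Subsingleton.elim _ _
    have e2 : (fun i : Fin 0 => g' (Fin.elim0 i)) = Fin.elim0 := Subsingleton.elim _ _
    rw [e1] at h1
    rw [e2] at h2
    exact h1.trans ((hMN φ').trans h2.symm)
  have hmS : @Theory.Model (LF L) ℕ S T' := ax_iff.2 fun φ hφ => hφ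
  have hmS' : @Theory.Model (LF L) ℕ S' T' := by
    refine ax_iff.2 fun φ hφ => ?_
    have h1 := hfin (.fo (φ : (LF L).BoundedFormula Empty 0))
    exact (rz_sentence S' φ _).1 (h1.1 ((rz_sentence S φ _).2 hφ))
  have hiso := hM T' hT' hfew' S S' hmS hmS' hfin
  exact hSM.symm.trans ((iso_down hS hS' hiso).trans hSN)

/-- Martin's conjecture for countable languages follows from its restriction to pairs of dense
linear orders. -/
theorem martin_allC [Countable L.Symbols]
    (hV : ∀ T : L2.Theory, T.IsComplete → CM T →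
      (∀ S : L2.Structure ℕ, @Theory.Model L2 ℕ S T → DL1 (g1 S) ∧ DL1 (g2 S)) → MartinN T)
    (T : L.Theory) (hfew : CM T) : MartinN T := by
  have : Countable (Σ n, (LF L).Relations n) := countable_LF
  exact reduceFC T hfew fun T' _ h => martin_relC hV T' h

end RF

section RI

open FirstOrder FirstOrder.Language
open Pool.Agent.W889.FO Pool.Agent.W889.VC
open Pool.Agent.W889.FO.StA (FD.all1 FD.ex1)
open Pool.Agent.TH686.FO Pool.Agent.TH686.DO
open Pool.Agent.TH686.MC hiding transfer transferJ reduceI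

/-- the reduction to dense linear orders with an involution -/
theorem reduceIC (hV : ∀ T : L2.Theory, T.IsComplete → CM T →
      (∀ S : L2.Structure ℕ, @Theory.Model L2 ℕ S T → IW S) → MartinN T)
    (T : L2.Theory) (hfew : CM T)
    (hT : ∀ S : L2.Structure ℕ, @Theory.Model L2 ℕ S T → DL1 (g1 S) ∧ DL1 (g2 S)) :
    MartinN T := by
  have := countable_L2
  refine transferJC (tq I2p) gnI.sup T hfew (fun M hM => ?_) fun T' h1 h2 h3 => hV T' h1 h2 h3
  obtain ⟨S, h1, h2⟩ := ex2 M (hT M hM).1 (hT M hM).2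
  exact ⟨S, h1, trivial, h2⟩

end RI

section RT

open FirstOrder FirstOrder.Language
open Pool.Agent.W889.FO (ax_iff)
open Pool.Agent.TH686.JT
open Pool.Agent.TH686.MC (Rz MartinN L1 tq D_tq rz_sentence)
open Pool.Agent.W921.VP (Len Pre Mods)

variable {L : FirstOrder.Language.{0, 0}}

theorem cm_congr {T T' : L.Theory}
    (h : ∀ S : L.Structure ℕ, @Theory.Model L ℕ S T ↔ @Theory.Model L ℕ S T') (hT : CM T) :
    CM T' := by
  obtain ⟨g, hg⟩ := hT
  exact ⟨g, fun S hS => hg S ((h S).2 hS)⟩

/-- the reduction -/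
theorem reduceTC [L.IsRelational] [Countable (Σ n, L.Relations n)] {Q : ℕ → ℕ → Prop}
    {T : L.Theory} (hT : T.IsComplete) (hsyn : Syn Q T) (hD : ∃ a b, Q a b ∧ 0 < a)
    (hE : ∃ a b, Q a b ∧ 0 < b) (hfew : CM T)
    (hM : ∀ T3 : (LT L).Theory, T3.IsComplete →
      (∀ σ ∈ T3, ∃ a b, Q a b ∧ Pre 0 a b (σ : (LT L).BoundedFormula Empty 0)) →
      CM T3 → MartinN T3) : MartinN T := by
  have : Countable (Σ n, (LT L).Relations n) := countable_LT
  refine transferJC (tq (itp T)) (gnT T).sup T hfew (fun M hMT => ?_) fun T' h1 h2 h3 => ?_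
  · obtain ⟨S, h1, h2, h3⟩ := exT T M hMT
    exact ⟨S, h1, h2, by rw [D_tq]; exact h3⟩
  · intro S S' hS hS' hE'
    have hc := complete_TT hT hsyn hD hE ⟨S, h3 S hS⟩
    have hmod : ∀ R : (LT L).Structure ℕ,
        @Theory.Model (LT L) ℕ R T' ↔ @Theory.Model (LT L) ℕ R (TT Q T) := by
      intro R
      constructor
      · exact fun h => (mod_TT hsyn R).2 (h3 R h)
      · intro h
        refine ax_iff.2 fun φ hφ => ?_
        have k1 := elem_eq hT (h3 S hS) ((mod_TT hsyn R).1 h) φ
        rw [rz_sentence, rz_sentence] at k1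
        exact k1.1 (ax_iff.1 hS φ hφ)
    exact martinN_congr hmod (hM (TT Q T) hc (fun σ hσ => hσ.1) (cm_congr hmod h2))
      S S' hS hS' hE'

end RT

end Pool.Agent.Helper60.MF
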